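import Pool.Agent.Helper55.SCH.Goals

set_option autoImplicit false

namespace Pool.Agent.Helper14.SCH

open Finset Pool.Agent.Helper55.SCH

/-- one coordinate: a point where moving by `t` inside `[-1,1]` does not decrease the value is the
clamp of the gradient -/
theorem clampPoint (lam z G κ : ℝ) (hlam : 0 < lam) (hz : z ∈ Set.Icc (-1 : ℝ) 1)
    (h : ∀ t : ℝ, z + t ∈ Set.Icc (-1 : ℝ) 1 → 0 ≤ 2 * t * (G + lam * z) + t ^ 2 * κ) :
    z = - Phi lam G := by
  have h1 : z < 1 → 0 ≤ G + lam * z := by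
    intro hz1
    by_contra hneg
    push Not at hneg
    set a := G + lam * z with ha
    have hk : 0 < |κ| + 1 := by positivity
    set t := min (1 - z) (-a / (|κ| + 1)) with ht
    have htpos : 0 < t := lt_min (by linarith) (div_pos (by linarith) hk)
    have ht1 : t ≤ 1 - z := min_le_left _ _
    have ht2 : t ≤ -a / (|κ| + 1) := min_le_right _ _
    have ht3 : t * (|κ| + 1) ≤ -a := (le_div_iff₀ hk).1 ht2
    have h2 := h t ⟨by linarith [hz.1], by linarith⟩
    have h3 : t ^ 2 * κ ≤ t * (t * |κ|) := by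
      have := le_abs_self κ
      nlinarith [sq_nonneg t]
    have h4 : t * (t * |κ|) ≤ t * (-a) := by
      apply mul_le_mul_of_nonneg_left _ htpos.le
      nlinarith
    nlinarith
  have h2 : -1 < z → G + lam * z ≤ 0 := by
    intro hz1
    by_contra hneg
    push Not at hneg
    set a := G + lam * z with ha
    have hk : 0 < |κ| + 1 := by positivity
    set t := min (z + 1) (a / (|κ| + 1)) with ht
    have htpos : 0 < t := lt_min (by linarith) (div_pos (by linarith) hk)
    have ht1 : t ≤ z + 1 := min_le_left _ _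
    have ht2 : t ≤ a / (|κ| + 1) := min_le_right _ _
    have ht3 : t * (|κ| + 1) ≤ a := (le_div_iff₀ hk).1 ht2
    have h2 := h (-t) ⟨by linarith, by linarith [hz.2]⟩
    have h3 : (-t) ^ 2 * κ ≤ t * (t * |κ|) := by
      have := le_abs_self κ
      nlinarith [sq_nonneg t]
    have h4 : t * (t * |κ|) ≤ t * a := by
      apply mul_le_mul_of_nonneg_left _ htpos.le
      nlinarith
    nlinarith
  unfold Phi
  rcases lt_or_eq_of_le hz.2 with hz1 | hz1
  · rcases lt_or_eq_of_le hz.1 with hz2 | hz2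
    · have e : G + lam * z = 0 := le_antisymm (h2 hz2) (h1 hz1)
      have : G / lam = -z := by
        field_simp
        linarith
      rw [this, min_eq_right (by linarith), max_eq_right (by linarith)]
      ring
    · have e := h1 hz1
      have : 1 ≤ G / lam := by
        rw [le_div_iff₀ hlam]
        rw [← hz2] at e
        linarith
      rw [min_eq_left this, max_eq_right (by norm_num)]
      linarith
  · have e := h2 (by rw [hz1]; norm_num)
    have : G / lam ≤ -1 := by
      rw [div_le_iff₀ hlam]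
      rw [hz1] at e
      linarith
    rw [min_eq_right (by linarith), max_eq_left this]
    linarith

/-- the general statement for a symmetric matrix -/
theorem genMin {ι : Type} [Fintype ι] [DecidableEq ι] (M : ι → ι → ℝ) (hM : ∀ i j, M i j = M j i)
    (lam : ℝ) (hlam : 0 < lam) :
    ∃ z : ι → ℝ, (∀ i, z i ∈ Set.Icc (-1 : ℝ) 1) ∧ (∀ i, z i = - Phi lam (∑ j, M i j * z j)) ∧
      ∀ z' : ι → ℝ, (∀ i, |z' i| ≤ 1) →
        ∑ i, z i * ∑ j, M i j * z j - lam * Fintype.card ι ≤ ∑ i, z' i * ∑ j, M i j * z' j := by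
  classical
  set F : (ι → ℝ) → ℝ := fun z => ∑ i, z i * ∑ j, M i j * z j + lam * ∑ i, z i ^ 2 with hF
  have hFc : Continuous F := by
    rw [hF]
    fun_prop
  have hK : IsCompact (Set.univ.pi (fun _ : ι => Set.Icc (-1 : ℝ) 1)) :=
    isCompact_univ_pi (fun _ => isCompact_Icc)
  have hne : (Set.univ.pi (fun _ : ι => Set.Icc (-1 : ℝ) 1)).Nonempty :=
    ⟨fun _ => 0, fun i _ => ⟨by norm_num, by norm_num⟩⟩
  obtain ⟨z, hz, hmin⟩ := hK.exists_isMinOn hne hFc.continuousOn
  have hz' : ∀ i, z i ∈ Set.Icc (-1 : ℝ) 1 := fun i => hz i (Set.mem_univ i)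
  refine ⟨z, hz', ?_, ?_⟩
  · intro i
    apply clampPoint lam (z i) (∑ j, M i j * z j) (M i i + lam) hlam (hz' i)
    intro t ht
    have hmem : (fun j => z j + Pi.single (M := fun _ => ℝ) i t j) ∈
        Set.univ.pi (fun _ : ι => Set.Icc (-1 : ℝ) 1) := by
      intro j _
      by_cases hj : j = i
      · subst hj
        simpa using ht
      · simp only [Pi.single_apply, hj, if_false, add_zero]
        exact hz' j
    have h0 : F z ≤ F (fun j => z j + Pi.single (M := fun _ => ℝ) i t j) := hmin hmem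
    have h1 : F (fun j => z j + Pi.single (M := fun _ => ℝ) i t j) =
        F z + (2 * t * (∑ j, M i j * z j + lam * z i) + t ^ 2 * (M i i + lam)) := by
      simp only [hF]
      have e1 : ∀ k, ∑ j, M k j * (z j + Pi.single (M := fun _ => ℝ) i t j) =
          ∑ j, M k j * z j + M k i * t := by
        intro k
        simp only [mul_add, Finset.sum_add_distrib]
        congr 1
        simp [Pi.single_apply]
      have e2 : ∑ k, (z k + Pi.single (M := fun _ => ℝ) i t k) *
          ∑ j, M k j * (z j + Pi.single (M := fun _ => ℝ) i t j) =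
          ∑ k, z k * ∑ j, M k j * z j + t * ∑ k, M i k * z k +
            (t * ∑ j, M i j * z j + t * (M i i * t)) := by
        simp only [e1]
        simp only [add_mul, mul_add, Finset.sum_add_distrib]
        congr 1
        · congr 1
          simp [Pi.single_apply]
        · congr 1
          · rw [Finset.mul_sum]
            apply Finset.sum_congr rfl
            intro k _
            rw [hM k i]
            ring
          · simp [Pi.single_apply]
      have e3 : ∑ k, (z k + Pi.single (M := fun _ => ℝ) i t k) ^ 2 =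
          ∑ k, z k ^ 2 + (2 * t * z i + t ^ 2) := by
        have : ∀ k, (z k + Pi.single (M := fun _ => ℝ) i t k) ^ 2 =
            z k ^ 2 + Pi.single (M := fun _ => ℝ) i (2 * t * z i + t ^ 2) k := by
          intro k
          by_cases hk : k = i
          · subst hk
            simp
            ring
          · simp [hk]
        simp only [this, Finset.sum_add_distrib]
        congr 1
        simp [Pi.single_apply]
      rw [e2, e3]
      ring
    rw [h1] at h0
    linarith
  · intro z' hz'1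
    have hmem : z' ∈ Set.univ.pi (fun _ : ι => Set.Icc (-1 : ℝ) 1) :=
      fun i _ => abs_le.1 (hz'1 i)
    have h0 : F z ≤ F z' := hmin hmem
    simp only [hF] at h0
    have h1 : 0 ≤ lam * ∑ i, z i ^ 2 := mul_nonneg hlam.le (Finset.sum_nonneg fun i _ => sq_nonneg _)
    have h2 : ∑ i, z' i ^ 2 ≤ (Fintype.card ι : ℝ) := by
      have : ∑ i, z' i ^ 2 ≤ ∑ _i : ι, (1 : ℝ) := by
        apply Finset.sum_le_sum
        intro i _
        have := hz'1 i
        rw [← sq_abs]
        nlinarith [abs_nonneg (z' i)]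
      simpa using this
    have h3 : lam * ∑ i, z' i ^ 2 ≤ lam * (Fintype.card ι : ℝ) :=
      mul_le_mul_of_nonneg_left h2 hlam.le
    linarith

theorem S_eq (u : ℕ) (r : ℕ → ℝ) (hr : ∀ v, v ∉ Icc 1 u → r v = 0) (k : ℕ) :
    S r k = ∑ v ∈ Icc 1 u, (if v ≤ k then r v else 0) := by
  unfold S
  rw [← Finset.sum_filter]
  symm
  apply Finset.sum_subset
  · intro x hx
    simp only [mem_filter, mem_Icc] at hx ⊢
    omega
  · intro x hx hx'
    apply hr
    intro hx''
    apply hx'
    simp only [mem_filter, mem_Icc] at hx hx'' ⊢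
    omega

/-- the four blocks of the matrix -/
def Mss (c x y : ℕ) : ℝ := 1 + (if x + y ≤ c then 1 else 0)
def Msr (u x v : ℕ) : ℝ := (if v ≤ u - x then 1 else 0) + (if x < v then 1 else 0)
def Mrr (c v v' : ℕ) : ℝ := if v' ≤ v + c ∧ v ≤ v' + c then 1 else 0

theorem sumSS (c : ℕ) (s : ℕ → ℝ) (hs : ∀ x, x ∉ Icc 1 c → s x = 0) (x : ℕ) (hx : x ∈ Icc 1 c) :
    ∑ y ∈ Icc 1 c, Mss c x y * s y = S s c + S s (c - x) := by
  rw [S_eq c s hs (c - x), S, ← Finset.sum_add_distrib]
  apply Finset.sum_congr rfl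
  intro y hy
  simp only [mem_Icc] at hx hy
  unfold Mss
  by_cases h : x + y ≤ c
  · rw [if_pos h, if_pos (by omega)]; ring
  · rw [if_neg h, if_neg (by omega)]; ring

theorem sumSR (u : ℕ) (r : ℕ → ℝ) (hr : ∀ v, v ∉ Icc 1 u → r v = 0) (x : ℕ) :
    ∑ v ∈ Icc 1 u, Msr u x v * r v = S r (u - x) + S r u - S r x := by
  rw [S_eq u r hr (u - x), S_eq u r hr x, S, ← Finset.sum_add_distrib, ← Finset.sum_sub_distrib]
  apply Finset.sum_congr rfl
  intro v hv
  simp only [mem_Icc] at hv
  unfold Msr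
  by_cases h1 : v ≤ u - x <;> by_cases h2 : x < v
  · rw [if_pos h1, if_pos h2, if_pos h1, if_neg (by omega)]; ring
  · rw [if_pos h1, if_neg h2, if_pos h1, if_pos (by omega)]; ring
  · rw [if_neg h1, if_pos h2, if_neg h1, if_neg (by omega)]; ring
  · rw [if_neg h1, if_neg h2, if_neg h1, if_pos (by omega)]; ring

theorem sumRS (c u : ℕ) (s : ℕ → ℝ) (hs : ∀ x, x ∉ Icc 1 c → s x = 0) (v : ℕ)
    (hv : v ∈ Icc 1 u) :
    ∑ x ∈ Icc 1 c, Msr u x v * s x = S s (u - v) + S s (v - 1) := by
  rw [S_eq c s hs (u - v), S_eq c s hs (v - 1), ← Finset.sum_add_distrib]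
  apply Finset.sum_congr rfl
  intro x hx
  simp only [mem_Icc] at hx hv
  unfold Msr
  by_cases h1 : v ≤ u - x <;> by_cases h2 : x < v
  · rw [if_pos h1, if_pos h2, if_pos (by omega), if_pos (by omega)]; ring
  · rw [if_pos h1, if_neg h2, if_pos (by omega), if_neg (by omega)]; ring
  · rw [if_neg h1, if_pos h2, if_neg (by omega), if_pos (by omega)]; ring
  · rw [if_neg h1, if_neg h2, if_neg (by omega), if_neg (by omega)]; ring

theorem sumRR (c u : ℕ) (r : ℕ → ℝ) (hr : ∀ v, v ∉ Icc 1 u → r v = 0) (v : ℕ) :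
    ∑ v' ∈ Icc 1 u, Mrr c v v' * r v' = S r (v + c) - S r (v - 1 - c) := by
  rw [S_eq u r hr (v + c), S_eq u r hr (v - 1 - c), ← Finset.sum_sub_distrib]
  apply Finset.sum_congr rfl
  intro v' hv'
  simp only [mem_Icc] at hv'
  unfold Mrr
  by_cases h1 : v' ≤ v + c <;> by_cases h2 : v ≤ v' + c
  · rw [if_pos ⟨h1, h2⟩, if_pos h1, if_neg (by omega)]; ring
  · rw [if_neg (fun h => h2 h.2), if_pos h1, if_pos (by omega)]; ring
  · rw [if_neg (fun h => h1 h.1), if_neg h1, if_neg (by omega)]; ring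
  · omega

/-- the index type -/
abbrev Idx (c u : ℕ) : Type := (↥(Icc 1 c) ⊕ ↥(Icc 1 u))

def MM (c u : ℕ) : Idx c u → Idx c u → ℝ
  | Sum.inl x, Sum.inl y => Mss c x y
  | Sum.inl x, Sum.inr v => Msr u x v
  | Sum.inr v, Sum.inl x => Msr u x v
  | Sum.inr v, Sum.inr v' => Mrr c v v'

theorem MM_symm (c u : ℕ) (i j : Idx c u) : MM c u i j = MM c u j i := by
  rcases i with x | v <;> rcases j with y | v'
  · simp only [MM, Mss, add_comm (x : ℕ) (y : ℕ)]
  · simp only [MM]
  · simp only [MM]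
  · simp only [MM, Mrr, and_comm]

/-- glue -/
def zz (c u : ℕ) (s r : ℕ → ℝ) : Idx c u → ℝ := Sum.elim (fun x => s x) (fun v => r v)

theorem rowG (c u : ℕ) (s r : ℕ → ℝ) (hs : ∀ x, x ∉ Icc 1 c → s x = 0)
    (hr : ∀ v, v ∉ Icc 1 u → r v = 0) (x : ↥(Icc 1 c)) :
    ∑ j, MM c u (Sum.inl x) j * zz c u s r j = g c u s r x := by
  rw [Fintype.sum_sum_type]
  simp only [MM, zz, Sum.elim_inl, Sum.elim_inr]
  rw [Finset.sum_coe_sort (Icc 1 c) (fun y => Mss c x y * s y),
    Finset.sum_coe_sort (Icc 1 u) (fun v => Msr u x v * r v), sumSS c s hs x x.2, sumSR u r hr x]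
  rfl

theorem rowW (c u : ℕ) (s r : ℕ → ℝ) (hs : ∀ x, x ∉ Icc 1 c → s x = 0)
    (hr : ∀ v, v ∉ Icc 1 u → r v = 0) (v : ↥(Icc 1 u)) :
    ∑ j, MM c u (Sum.inr v) j * zz c u s r j = w c u s r v := by
  rw [Fintype.sum_sum_type]
  simp only [MM, zz, Sum.elim_inl, Sum.elim_inr]
  rw [Finset.sum_coe_sort (Icc 1 c) (fun y => Msr u y v * s y),
    Finset.sum_coe_sort (Icc 1 u) (fun v' => Mrr c v v' * r v'), sumRS c u s hs v v.2,
    sumRR c u r hr v]
  rfl

theorem quadQ (c u : ℕ) (s r : ℕ → ℝ) (hs : ∀ x, x ∉ Icc 1 c → s x = 0)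
    (hr : ∀ v, v ∉ Icc 1 u → r v = 0) :
    ∑ i, zz c u s r i * ∑ j, MM c u i j * zz c u s r j = Q c u s r := by
  rw [Fintype.sum_sum_type]
  simp only [rowG c u s r hs hr, rowW c u s r hs hr]
  simp only [zz, Sum.elim_inl, Sum.elim_inr]
  rw [Finset.sum_coe_sort (Icc 1 c) (fun x => s x * g c u s r x),
    Finset.sum_coe_sort (Icc 1 u) (fun v => r v * w c u s r v)]
  have hex : ∑ x ∈ Icc 1 c, s x * (S r (u - x) + S r u - S r x) =
      ∑ v ∈ Icc 1 u, r v * (S s (u - v) + S s (v - 1)) := by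
    have e1 : ∑ x ∈ Icc 1 c, s x * (S r (u - x) + S r u - S r x) =
        ∑ x ∈ Icc 1 c, ∑ v ∈ Icc 1 u, s x * (Msr u x v * r v) := by
      apply Finset.sum_congr rfl
      intro x _
      rw [← sumSR u r hr x, Finset.mul_sum]
    have e2 : ∑ v ∈ Icc 1 u, r v * (S s (u - v) + S s (v - 1)) =
        ∑ v ∈ Icc 1 u, ∑ x ∈ Icc 1 c, r v * (Msr u x v * s x) := by
      apply Finset.sum_congr rfl
      intro v hv
      rw [← sumRS c u s hs v hv, Finset.mul_sum]
    rw [e1, e2, Finset.sum_comm]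
    apply Finset.sum_congr rfl
    intro v _
    apply Finset.sum_congr rfl
    intro x _
    ring
  have e3 : ∑ x ∈ Icc 1 c, s x * g c u s r x =
      S s c ^ 2 + ∑ x ∈ Icc 1 c, s x * S s (c - x) +
        ∑ x ∈ Icc 1 c, s x * (S r (u - x) + S r u - S r x) := by
    have : S s c ^ 2 = ∑ x ∈ Icc 1 c, s x * S s c := by
      rw [← Finset.sum_mul, S]
      ring
    rw [this, ← Finset.sum_add_distrib, ← Finset.sum_add_distrib]
    apply Finset.sum_congr rfl
    intro x _
    unfold g
    ring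
  have e4 : ∑ v ∈ Icc 1 u, r v * w c u s r v =
      ∑ v ∈ Icc 1 u, r v * (S s (u - v) + S s (v - 1)) +
        ∑ v ∈ Icc 1 u, r v * (S r (v + c) - S r (v - 1 - c)) := by
    rw [← Finset.sum_add_distrib]
    apply Finset.sum_congr rfl
    intro v _
    unfold w
    ring
  rw [e3, e4, ← hex]
  unfold Q
  ring

/-- the statement of the packet -/
theorem goalMIN : G_MIN := by
  classical
  intro c u lam hlam
  obtain ⟨z, hz1, hz2, hz3⟩ := genMin (MM c u) (MM_symm c u) lam hlam
  set s : ℕ → ℝ := fun x => if h : x ∈ Icc 1 c then z (Sum.inl ⟨x, h⟩) else 0 with hs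
  set r : ℕ → ℝ := fun v => if h : v ∈ Icc 1 u then z (Sum.inr ⟨v, h⟩) else 0 with hr
  have hs0 : ∀ x, x ∉ Icc 1 c → s x = 0 := fun x hx => by simp only [hs, dif_neg hx]
  have hr0 : ∀ v, v ∉ Icc 1 u → r v = 0 := fun x hx => by simp only [hr, dif_neg hx]
  have hzz : zz c u s r = z := by
    funext i
    rcases i with x | v
    · simp only [zz, Sum.elim_inl, hs, dif_pos x.2]
    · simp only [zz, Sum.elim_inr, hr, dif_pos v.2]
  refine ⟨s, r, ⟨hs0, hr0, ?_, ?_⟩, ?_⟩
  · intro x hx
    have e := hz2 (Sum.inl ⟨x, hx⟩)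
    rw [← hzz] at e
    rw [rowG c u s r hs0 hr0 ⟨x, hx⟩] at e
    exact e
  · intro v hv
    have e := hz2 (Sum.inr ⟨v, hv⟩)
    rw [← hzz] at e
    rw [rowW c u s r hs0 hr0 ⟨v, hv⟩] at e
    exact e
  · intro s' r' hs1 hr1 hs2 hr2
    have e := hz3 (zz c u s' r') (by
      intro i
      rcases i with x | v
      · exact hs1 x
      · exact hr1 v)
    rw [← hzz, quadQ c u s r hs0 hr0, quadQ c u s' r' hs2 hr2] at e
    have hcard : (Fintype.card (Idx c u) : ℝ) = (c : ℝ) + u := by
      rw [Fintype.card_sum, Fintype.card_coe, Fintype.card_coe, Nat.card_Icc, Nat.card_Icc]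
      push_cast [Nat.add_sub_cancel]
      ring
    rw [hcard] at e
    exact e

end Pool.Agent.Helper14.SCH
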